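import Pool.Agent.E8helper32.SQ.Stm2
import Pool.Agent.Helper202.Geom

/-! Injective holomorphic functions in a punctured disc. -/

set_option autoImplicit false

open Complex MeasureTheory Metric Set Filter Topology

namespace Pool.Agent.E8helper66.SQ

open Pool.Agent.E8helper32.SQ

theorem punc : S_PUNC := by
  intro R v hR hv hinj
  have hopen : IsOpen (ball (0 : ℂ) R \ {0}) := isOpen_ball.sdiff isClosed_singleton
  set x0 : ℂ := ((R / 2 : ℝ) : ℂ) with hx0
  have hx0n : ‖x0‖ = R / 2 := by
    rw [hx0, Complex.norm_real, Real.norm_eq_abs, abs_of_pos (by linarith)]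
  have hx0m : x0 ∈ ball (0 : ℂ) R \ {0} := by
    refine ⟨?_, ?_⟩
    · rw [mem_ball_zero_iff, hx0n]; linarith
    · intro h
      rw [mem_singleton_iff] at h
      rw [h, norm_zero] at hx0n
      linarith
  -- open mapping near x0
  have hsub : ball x0 (R / 8) ⊆ ball (0 : ℂ) R \ {0} := by
    intro y hy
    rw [mem_ball, dist_eq_norm] at hy
    refine ⟨?_, ?_⟩
    · rw [mem_ball_zero_iff]
      calc ‖y‖ = ‖(y - x0) + x0‖ := by rw [sub_add_cancel]
        _ ≤ ‖y - x0‖ + ‖x0‖ := norm_add_le _ _
        _ < R := by rw [hx0n]; linarith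
    · intro h
      rw [mem_singleton_iff] at h
      rw [h, zero_sub, norm_neg, hx0n] at hy
      linarith
  have hnb : v '' ball x0 (R / 8) ∈ 𝓝 (v x0) := by
    have ha : AnalyticAt ℂ v x0 := hv.analyticAt (hopen.mem_nhds hx0m)
    rcases ha.eventually_constant_or_nhds_le_map_nhds with h | h
    · exfalso
      have h1 : ∀ᶠ z in 𝓝[≠] x0, v z = v x0 ∧ z ∈ ball (0 : ℂ) R \ {0} ∧ z ≠ x0 := by
        filter_upwards [h.filter_mono nhdsWithin_le_nhds,
          mem_nhdsWithin_of_mem_nhds (hopen.mem_nhds hx0m), self_mem_nhdsWithin] with z h1 h2 h3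
        exact ⟨h1, h2, h3⟩
      obtain ⟨z, hz1, hz2, hz3⟩ := h1.exists
      exact hz3 (hinj hz2 hx0m hz1)
    · exact h (Filter.image_mem_map (ball_mem_nhds x0 (by linarith)))
  obtain ⟨ε, hε, hball⟩ := Metric.mem_nhds_iff.1 hnb
  set p := v x0 with hp
  set r := R / 4 with hr
  have hr0 : 0 < r := by rw [hr]; linarith
  have hin : ∀ x ∈ ball (0 : ℂ) r, x ≠ 0 → x ∈ ball (0 : ℂ) R \ {0} := by
    intro x hx hx'
    refine ⟨ball_subset_ball (by rw [hr]; linarith) hx, hx'⟩
  have hfar : ∀ x ∈ ball (0 : ℂ) r, x ≠ 0 → ε ≤ ‖v x - p‖ := by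
    intro x hx hx'
    by_contra hlt
    push Not at hlt
    obtain ⟨y, hy, hyv⟩ := hball (show v x ∈ ball p ε by rw [mem_ball, dist_eq_norm]; exact hlt)
    have hxy := hinj (hsub hy) (hin x hx hx') hyv
    rw [hxy, mem_ball, dist_eq_norm] at hy
    rw [mem_ball_zero_iff] at hx
    have : ‖x0‖ ≤ ‖x - x0‖ + ‖x‖ := by
      calc ‖x0‖ = ‖-(x - x0) + x‖ := by congr 1; ring
        _ ≤ ‖-(x - x0)‖ + ‖x‖ := norm_add_le _ _
        _ = _ := by rw [norm_neg]
    rw [hx0n] at this
    linarith
  have hne : ∀ x ∈ ball (0 : ℂ) r, x ≠ 0 → v x - p ≠ 0 := by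
    intro x hx hx' h
    have := hfar x hx hx'
    rw [h, norm_zero] at this
    linarith
  -- the reciprocal
  set f : ℂ → ℂ := fun x => (v x - p)⁻¹ with hf
  have hfd : DifferentiableOn ℂ f (ball 0 r \ {0}) := by
    apply DifferentiableOn.inv
    · exact (hv.mono (fun x hx => hin x hx.1 hx.2)).sub_const p
    · intro x hx
      exact hne x hx.1 hx.2
  set F : ℂ → ℂ := Function.update f 0 (limUnder (𝓝[≠] 0) f) with hF
  have hFd : DifferentiableOn ℂ F (ball 0 r) := by
    apply Complex.differentiableOn_update_limUnder_of_bddAbove (ball_mem_nhds 0 hr0) hfd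
    refine ⟨1 / ε, ?_⟩
    rintro _ ⟨x, hx, rfl⟩
    rw [Function.comp_apply, hf]
    simp only
    rw [norm_inv, ← one_div]
    exact one_div_le_one_div_of_le hε (hfar x hx.1 hx.2)
  have hFv : ∀ x, x ≠ 0 → F x = (v x - p)⁻¹ := by
    intro x hx
    rw [hF, Function.update_of_ne hx]
  have hFne : ∀ x ∈ ball (0 : ℂ) r, x ≠ 0 → F x ≠ 0 := by
    intro x hx hx'
    rw [hFv x hx']
    exact inv_ne_zero (hne x hx hx')
  have hvF : ∀ x ∈ ball (0 : ℂ) r, x ≠ 0 → v x = p + (F x)⁻¹ := by
    intro x hx hx'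
    rw [hFv x hx', inv_inv]
    ring
  -- gluing
  have glue : ∀ (w : ℂ → ℂ) (a : ℂ) (W : ℂ → ℂ), DifferentiableOn ℂ w (ball 0 R \ {0}) →
      DifferentiableOn ℂ W (ball 0 r) → W 0 = a → (∀ x ∈ ball (0 : ℂ) r, x ≠ 0 → w x = W x) →
      DifferentiableOn ℂ (Function.update w 0 a) (ball 0 R) := by
    intro w a W hw hW h0 heq x hx
    by_cases hx0 : x = 0
    · subst hx0
      apply DifferentiableAt.differentiableWithinAt
      have h1 : DifferentiableAt ℂ W 0 := hW.differentiableAt (ball_mem_nhds 0 hr0)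
      refine h1.congr_of_eventuallyEq ?_
      filter_upwards [ball_mem_nhds (0 : ℂ) hr0] with y hy
      by_cases hy0 : y = 0
      · subst hy0
        rw [Function.update_self, h0]
      · rw [Function.update_of_ne hy0, heq y hy hy0]
    · apply DifferentiableAt.differentiableWithinAt
      have h1 : DifferentiableAt ℂ w x := hw.differentiableAt (hopen.mem_nhds ⟨hx, hx0⟩)
      refine h1.congr_of_eventuallyEq ?_
      filter_upwards [isOpen_ne.mem_nhds hx0] with y hy
      rw [Function.update_of_ne hy]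
  by_cases hF0 : F 0 = 0
  · -- pole
    have hFinj : InjOn F (ball 0 r) := by
      intro x hx y hy hxy
      by_cases hx0 : x = 0
      · by_cases hy0 : y = 0
        · rw [hx0, hy0]
        · exfalso
          rw [hx0, hF0] at hxy
          exact hFne y hy hy0 hxy.symm
      · by_cases hy0 : y = 0
        · exfalso
          rw [hy0, hF0] at hxy
          exact hFne x hx hx0 hxy
        · apply hinj (hin x hx hx0) (hin y hy hy0)
          rw [hvF x hx hx0, hvF y hy hy0, hxy]
    have hder : deriv F 0 ≠ 0 :=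
      Pool.Agent.Helper202.Geom.deriv_ne_zero_of_injOn isOpen_ball hFd hFinj (mem_ball_self hr0)
    set k : ℂ → ℂ := dslope F 0 with hk
    have hkd : DifferentiableOn ℂ k (ball 0 r) :=
      (Complex.differentiableOn_dslope (ball_mem_nhds 0 hr0)).2 hFd
    have hk0 : k 0 = deriv F 0 := dslope_same F 0
    have hFk : ∀ x, F x = x * k x := by
      intro x
      have := sub_smul_dslope F 0 x
      rw [sub_zero, smul_eq_mul, hF0, sub_zero] at this
      exact this.symm
    have hkne : ∀ x ∈ ball (0 : ℂ) r, k x ≠ 0 := by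
      intro x hx
      by_cases hx0 : x = 0
      · rw [hx0, hk0]; exact hder
      · intro h
        apply hFne x hx hx0
        rw [hFk, h, mul_zero]
    refine ⟨Function.update (fun x => x * v x) 0 (k 0)⁻¹, ?_, Or.inr ⟨?_, ?_⟩⟩
    · apply glue _ _ (fun x => p * x + (k x)⁻¹)
      · exact differentiableOn_id.mul hv
      · exact ((differentiableOn_const p).mul differentiableOn_id).add (hkd.inv hkne)
      · simp
      · intro x hx hx0
        show x * v x = _
        rw [hvF x hx hx0, hFk]
        have := hkne x hx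
        field_simp
    · rw [Function.update_self]
      exact inv_ne_zero (hkne 0 (mem_ball_self hr0))
    · intro x hx hx0
      rw [Function.update_of_ne hx0]
      field_simp
  · refine ⟨Function.update v 0 (p + (F 0)⁻¹), ?_, Or.inl ?_⟩
    · apply glue _ _ (fun x => p + (F x)⁻¹) hv ?_ rfl hvF
      apply DifferentiableOn.const_add
      apply hFd.inv
      intro x hx
      by_cases hx0 : x = 0
      · rw [hx0]; exact hF0
      · exact hFne x hx hx0
    · intro x hx hx0
      rw [Function.update_of_ne hx0]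

end Pool.Agent.E8helper66.SQ
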